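import Pool.Agent.W250.RKJ.Thm2
import Pool.Agent.W340.RKJ.Pic

set_option autoImplicit false

/-!
# Explicit reverse Kohler-Jobin inequality

For every dimension `d`, with `z` the first zero of the entire function `F (d/2)` (that is, `z` is
the first Dirichlet eigenvalue of the unit ball, the square of the first zero of the Bessel
function `J_{d/2-1}`) and `G = 1 / F(d/2+1, z)^2`, the ball maximises
`F_q = lam * tor ^ q / vol ^ ((q (d+2) - 2) / d)` among all open sets of finite volume for all `q`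
above an explicit threshold. In the plane it does for all `q ≥ 4`, and in space for all
`q ≥ 15/2`.
-/

open MeasureTheory Metric Set

namespace Pool.Agent.Results.MP_d743a5_an.ExplicitThreshold

/-- the infimum of the Rayleigh quotients of the `C^1` functions with compact support in `Ω` -/
noncomputable def lam {d : ℕ} (Ω : Set (EuclideanSpace ℝ (Fin d))) : ℝ :=
  sInf {r : ℝ | ∃ u : EuclideanSpace ℝ (Fin d) → ℝ, ContDiff ℝ 1 u ∧ HasCompactSupport u ∧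
    tsupport u ⊆ Ω ∧ u ≠ 0 ∧ r = (∫ x, ‖fderiv ℝ u x‖ ^ 2) / (∫ x, u x ^ 2)}

/-- torsional rigidity -/
noncomputable def tor {d : ℕ} (Ω : Set (EuclideanSpace ℝ (Fin d))) : ℝ :=
  sSup {r : ℝ | ∃ u : EuclideanSpace ℝ (Fin d) → ℝ, ContDiff ℝ 1 u ∧ HasCompactSupport u ∧
    tsupport u ⊆ Ω ∧ u ≠ 0 ∧ r = (∫ x, u x) ^ 2 / (∫ x, ‖fderiv ℝ u x‖ ^ 2)}

/-- the scale invariant functional `F_q` -/
noncomputable def Fq {d : ℕ} (q : ℝ) (Ω : Set (EuclideanSpace ℝ (Fin d))) : ℝ :=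
  lam Ω * (tor Ω) ^ q / ((volume Ω).toReal) ^ ((q * ((d : ℝ) + 2) - 2) / (d : ℝ))

/-- the entire function with `4 y F'' + 4 ν F' + F = 0`, `F(0) = 1` -/
noncomputable def F (ν y : ℝ) : ℝ :=
  ∑' k : ℕ, (-y / 4) ^ k / ((k.factorial : ℝ) * ∏ i ∈ Finset.range k, (ν + i))

/-- `z` is the first zero of `F ν` on `[0, ∞)` -/
def FirstZero (ν z : ℝ) : Prop :=
  0 < z ∧ F ν z = 0 ∧ ∀ y, 0 ≤ y → y < z → 0 < F ν y

theorem result :
    (∀ d : ℕ, 1 ≤ d → ∃ z : ℝ, FirstZero ((d : ℝ) / 2) z) ∧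
    (∀ (d : ℕ) (z y0 q : ℝ), 1 ≤ d → FirstZero ((d : ℝ) / 2) z → 0 < y0 → y0 < 1 → 1 < q →
      2 / ((d : ℝ) + 2) * (Real.log (1 - y0) /
        Real.log (1 - y0 / (1 / F ((d : ℝ) / 2 + 1) z ^ 2))) ≤ q →
      1 + Real.log ((d : ℝ) * ((d : ℝ) + 2) / z) /
        (-Real.log (1 - y0 / (1 / F ((d : ℝ) / 2 + 1) z ^ 2))) ≤ q →
      ∀ Ω : Set (EuclideanSpace ℝ (Fin d)), IsOpen Ω → Ω.Nonempty → volume Ω < ⊤ →
        Fq q Ω ≤ Fq q (ball (0 : EuclideanSpace ℝ (Fin d)) 1)) ∧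
    (∀ q : ℝ, 4 ≤ q → ∀ Ω : Set (EuclideanSpace ℝ (Fin 2)), IsOpen Ω → Ω.Nonempty →
      volume Ω < ⊤ → Fq q Ω ≤ Fq q (ball (0 : EuclideanSpace ℝ (Fin 2)) 1)) ∧
    (∀ q : ℝ, 15 / 2 ≤ q → ∀ Ω : Set (EuclideanSpace ℝ (Fin 3)), IsOpen Ω → Ω.Nonempty →
      volume Ω < ⊤ → Fq q Ω ≤ Fq q (ball (0 : EuclideanSpace ℝ (Fin 3)) 1)) := by
  have hpic : Pool.Agent.W250.RKJ.SPIC := Pool.Agent.W340.RKJ.pic Pool.Agent.W250.RKJ.hSF
  refine ⟨fun d hd => ?_, fun d z y0 q hd hz hy0 hy1 hq h1 h2 Ω ho hne hfin =>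
    Pool.Agent.W250.RKJ.general hpic hd hz hy0 hy1 hq h1 h2 ho hne hfin, fun q hq Ω ho hne hfin =>
    Pool.Agent.W250.RKJ.plane hpic hq ho hne hfin, fun q hq Ω ho hne hfin => Pool.Agent.W250.RKJ.space hpic hq ho hne hfin⟩
  have hd0 : (0 : ℝ) < d := by exact_mod_cast hd
  exact Pool.Agent.W250.RKJ.hSEX ((d : ℝ) / 2) (by positivity)

end Pool.Agent.Results.MP_d743a5_an.ExplicitThreshold
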